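import Pool.Agent.Helper35.ADD.One

/-!
# Entropy of convolutions with the measure of an extreme trace

`G` is the group generated by `x ↦ 2x`, `x ↦ 3x`, `x ↦ x + 1`, `τ` is the translation by one.
-/

set_option autoImplicit false
open scoped ComplexOrder Topology
open Filter MeasureTheory Finset

namespace Pool.Agent.Results.MP_81910f_an.ConvolutionEntropy

/-- normalised positive definite class functions -/
def traces (G : Subgroup (Equiv.Perm ℚ)) : Set (G → ℂ) :=
  {ψ : G → ℂ | ψ 1 = 1 ∧ (∀ g h : G, ψ (h * g * h⁻¹) = ψ g) ∧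
    ∀ (s : Finset G) (c : G → ℂ), 0 ≤ ∑ i ∈ s, ∑ j ∈ s, star (c j) * c i * ψ (j⁻¹ * i)}

/-- the regular trace -/
noncomputable def reg (G : Subgroup (Equiv.Perm ℚ)) : G → ℂ :=
  Set.indicator ({1} : Set G) (fun _ => (1 : ℂ))

/-- `μ` is the probability measure on the circle with Fourier coefficients `φ (τ ^ m)` -/
def IsMeasureOf {G : Subgroup (Equiv.Perm ℚ)} (τ : G) (φ : G → ℂ)
    (μ : Measure (AddCircle (1 : ℝ))) : Prop :=
  IsProbabilityMeasure μ ∧ ∀ m : ℤ, ∫ x, (fourier m x : ℂ) ∂μ = φ (τ ^ m)

/-- the arc `[i / 2 ^ K, (i + 1) / 2 ^ K)` of the circle -/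
def arc (K i : ℕ) : Set (AddCircle (1 : ℝ)) :=
  (fun t : ℝ => (t : AddCircle (1 : ℝ))) '' Set.Ico ((i : ℝ) / 2 ^ K) ((i + 1) / 2 ^ K)

/-- the Shannon entropy of the partition of the circle into the `2 ^ K` dyadic arcs of length
`2 ^ (-K)` -/
noncomputable def shannon (μ : Measure (AddCircle (1 : ℝ))) (K : ℕ) : ℝ :=
  ∑ i ∈ range (2 ^ K), Real.negMulLog (μ.real (arc K i))

/-- **Entropy of convolutions.**  For an extreme trace `f` with measure `μ` the following are
equivalent: `f` is not the regular trace; the entropy of the convolution of `μ` with an arbitrary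
probability measure is asymptotically the sum of the two entropies, uniformly over all probability
measures and all scales; convolution of `μ` with any probability measure which is not purely atomic
raises the entropy by an amount tending to infinity; all irrational translates of `μ` are singular
to all probability measures invariant under multiplication by an integer at least two. -/
theorem result :
  ∀ (s2 s3 t : Equiv.Perm ℚ), (∀ x : ℚ, s2 x = 2 * x) → (∀ x : ℚ, s3 x = 3 * x) →
  (∀ x : ℚ, t x = x + 1) →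
  ∀ (G : Subgroup (Equiv.Perm ℚ)), G = Subgroup.closure {s2, s3, t} →
  ∀ τ : G, (τ : Equiv.Perm ℚ) = t →
  ∀ f ∈ Set.extremePoints ℝ (traces G), ∃ μ : Measure (AddCircle (1 : ℝ)), IsMeasureOf τ f μ ∧
    List.TFAE [
      f ≠ reg G,
      ∀ ε : ℝ, 0 < ε → ∃ C : ℝ, ∀ ν K, IsProbabilityMeasure ν →
        (1 - ε) * (shannon μ K + shannon ν K) - C ≤ shannon (μ.conv ν) K,
      ∀ ν, IsProbabilityMeasure ν → (∀ A, A.Countable → ν Aᶜ ≠ 0) →
        Tendsto (fun K => shannon (μ.conv ν) K - shannon μ K) atTop atTop,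
      ∀ u : AddCircle (1 : ℝ), addOrderOf u = 0 → ∀ (q : ℕ) (ρ : Measure (AddCircle (1 : ℝ))),
        2 ≤ q → IsProbabilityMeasure ρ →
        MeasurePreserving (fun x : AddCircle (1 : ℝ) => q • x) ρ ρ →
        (μ.map fun x => x + u) ⟂ₘ ρ] :=
  Helper35.ADD.One.result

end Pool.Agent.Results.MP_81910f_an.ConvolutionEntropy
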