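import Pool.Agent.Helper35.IP.OneP

/-!
# Powers of extreme traces

`G` is the group generated by `x ↦ 2x`, `x ↦ 3x`, `x ↦ x + 1`, `τ` is the translation by one.
-/

set_option autoImplicit false
open scoped ComplexOrder ComplexConjugate
open MeasureTheory Finset

namespace Pool.Agent.Results.MP_81910f_an.SingularPowers

/-- normalised positive definite class functions -/
def traces (G : Subgroup (Equiv.Perm ℚ)) : Set (G → ℂ) :=
  {ψ : G → ℂ | ψ 1 = 1 ∧ (∀ g h : G, ψ (h * g * h⁻¹) = ψ g) ∧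
    ∀ (s : Finset G) (c : G → ℂ), 0 ≤ ∑ i ∈ s, ∑ j ∈ s, star (c j) * c i * ψ (j⁻¹ * i)}

/-- the regular trace -/
noncomputable def reg (G : Subgroup (Equiv.Perm ℚ)) : G → ℂ :=
  Set.indicator ({1} : Set G) (fun _ => (1 : ℂ))

/-- the translates of `φ` by the translations in `G` span a space of finite dimension -/
def CondFiniteDim (G : Subgroup (Equiv.Perm ℚ)) (φ : G → ℂ) : Prop :=
  FiniteDimensional ℂ (Submodule.span ℂ {F : G → ℂ | ∃ n : G,
    (∃ r : ℚ, ∀ x : ℚ, (n : Equiv.Perm ℚ) x = x + r) ∧ F = fun x => φ (n * x)})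

/-- `μ` is the probability measure on the circle with Fourier coefficients `φ (τ ^ m)` -/
def IsMeasureOf {G : Subgroup (Equiv.Perm ℚ)} (τ : G) (φ : G → ℂ)
    (μ : Measure (AddCircle (1 : ℝ))) : Prop :=
  IsProbabilityMeasure μ ∧ ∀ m : ℤ, ∫ x, (fourier m x : ℂ) ∂μ = φ (τ ^ m)

/-- the functional on the C*-algebra generated by `τ` (that is, on the continuous functions on the
circle) with the values `F (τ ^ m)` has norm at most `B` -/
def NormLE {G : Subgroup (Equiv.Perm ℚ)} (τ : G) (F : G → ℂ) (B : ℝ) : Prop :=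
  ∀ (s : Finset ℤ) (d : ℤ → ℂ), (∀ x : AddCircle (1 : ℝ), ‖∑ m ∈ s, d m * fourier m x‖ ≤ 1) →
    ‖∑ m ∈ s, d m * F (τ ^ m)‖ ≤ B

/-- **Powers of extreme traces.**  Let `m a b` be the measure of `f ^ a * conj f ^ b`.  An extreme
trace `f` is a counterexample (not regular and conditionally infinite dimensional) if and only if
the measures of its powers `1, f, f ^ 2, …` are pairwise mutually singular, if and only if every
translate of `m a b` is singular to `m c d` whenever `a + b ≠ c + d`, and also for all `a, b, c, d`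
if the translation is irrational, if and only if the powers of `f` span `ℓ¹` isometrically in the
dual of the C*-algebra generated by `τ`. -/
theorem result :
  ∀ (s2 s3 t : Equiv.Perm ℚ), (∀ x : ℚ, s2 x = 2 * x) → (∀ x : ℚ, s3 x = 3 * x) →
  (∀ x : ℚ, t x = x + 1) →
  ∀ (G : Subgroup (Equiv.Perm ℚ)), G = Subgroup.closure {s2, s3, t} →
  ∀ τ : G, (τ : Equiv.Perm ℚ) = t →
  ∀ f ∈ Set.extremePoints ℝ (traces G), ∃ m : ℕ → ℕ → Measure (AddCircle (1 : ℝ)),
    (∀ a b, IsMeasureOf τ (fun x => f x ^ a * conj (f x) ^ b) (m a b)) ∧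
    List.TFAE [
      f ≠ reg G ∧ ¬ CondFiniteDim G f,
      ∀ a c, a ≠ c → m a 0 ⟂ₘ m c 0,
      ∀ a b c d, ∀ u : AddCircle (1 : ℝ), (a + b ≠ c + d ∨ addOrderOf u = 0) →
        (m a b).map (fun x => x + u) ⟂ₘ m c d,
      ∀ (r : ℕ) (c : ℕ → ℂ), IsLeast {B : ℝ | NormLE τ (fun x => ∑ n ∈ range r, c n * f x ^ n) B}
        (∑ n ∈ range r, ‖c n‖)] :=
  Helper35.IP.One.resultP

end Pool.Agent.Results.MP_81910f_an.SingularPowers
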