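import Pool.Agent.Helper87.SC.Main

/-!
# MP_81910f_an: extreme traces with summable correlations
-/

set_option autoImplicit false
open scoped ComplexOrder InnerProductSpace
open Filter MeasureTheory Finset

namespace Pool.Agent.Results.MP_81910f_an.SummableCorrelations

/-- extreme normalised positive definite class functions -/
def IsExtremeTrace (G : Subgroup (Equiv.Perm ℚ)) (φ : G → ℂ) : Prop :=
  φ ∈ Set.extremePoints ℝ {ψ : G → ℂ | ψ 1 = 1 ∧ (∀ g h : G, ψ (h * g * h⁻¹) = ψ g) ∧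
    ∀ (s : Finset G) (c : G → ℂ), 0 ≤ ∑ i ∈ s, ∑ j ∈ s, star (c j) * c i * ψ (j⁻¹ * i)}

/-- the translates by translations span a finite dimensional space -/
def CondFiniteDim (G : Subgroup (Equiv.Perm ℚ)) (φ : G → ℂ) : Prop :=
  FiniteDimensional ℂ (Submodule.span ℂ {F : G → ℂ | ∃ n : G,
    (∃ r : ℚ, ∀ x : ℚ, (n : Equiv.Perm ℚ) x = x + r) ∧ F = fun x => φ (n * x)})

/-- the correlation `φ (t ^ (m (g ^ b - 1))) - |φ (t ^ m)| ^ 2` of `m` and `g ^ b m` -/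
noncomputable def corr {G : Subgroup (Equiv.Perm ℚ)} (τ : G) (φ : G → ℂ) (g m b : ℕ) : ℂ :=
  φ (τ ^ (m * ((g : ℤ) ^ b - 1) : ℤ)) - (‖φ (τ ^ m)‖ ^ 2 : ℝ)

/-- For every `h < 1 / 2` the correlations of `m` are not summable with the weights `1 / log ^ h`,
and their Cesàro sums are not `O((log N) ^ h)`. -/
def Slow {G : Subgroup (Equiv.Perm ℚ)} (τ : G) (φ : G → ℂ) (g m : ℕ) : Prop :=
  ∀ h : ℝ, h < 1 / 2 → (¬ Summable fun b : ℕ => ‖corr τ φ g m b‖ / Real.log (b + 2) ^ h) ∧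
    ∀ C : ℝ, ∃ N : ℕ, 1 ≤ N ∧
      C * Real.log (N + 1) ^ h < ∑ b ∈ range N, (1 - (b : ℝ) / N) * (corr τ φ g m b).re

/-- Let `φ` be an extreme trace. For `g = 2` and for `g = 3` it is the regular trace or `φ t = 1`, iff
for every `m` its correlations `corr τ φ g m b` are summable over `b`, iff for every `m` there is an
`h < 1 / 2` such that they are summable with the weights `1 / log ^ h`. If `φ` is not the regular
trace and has infinite conditional dimension, there are an `m` with `Slow τ φ 2 m` and an `m` with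
`Slow τ φ 3 m`, and every `m` with `|φ (t ^ m)| > 1 / 2` has `Slow τ φ 3 m`. -/
theorem result :
  ∀ (s2 s3 t : Equiv.Perm ℚ), (∀ x : ℚ, s2 x = 2 * x) → (∀ x : ℚ, s3 x = 3 * x) →
  (∀ x : ℚ, t x = x + 1) →
  ∀ (G : Subgroup (Equiv.Perm ℚ)), G = Subgroup.closure {s2, s3, t} →
  ∀ τ : G, (τ : Equiv.Perm ℚ) = t →
  ∀ φ : G → ℂ, IsExtremeTrace G φ →
  (∀ g : ℕ, g = 2 ∨ g = 3 → List.TFAE [
    φ = Set.indicator ({1} : Set G) (fun _ => (1 : ℂ)) ∨ φ τ = 1,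
    ∀ m : ℕ, 1 ≤ m → Summable fun b : ℕ => ‖corr τ φ g m b‖,
    ∀ m : ℕ, 1 ≤ m → ∃ h : ℝ, h < 1 / 2 ∧
      Summable fun b : ℕ => ‖corr τ φ g m b‖ / Real.log (b + 2) ^ h]) ∧
  (¬ φ = Set.indicator ({1} : Set G) (fun _ => (1 : ℂ)) → ¬ CondFiniteDim G φ →
    (∃ m : ℕ, 1 ≤ m ∧ Slow τ φ 2 m) ∧ (∃ m : ℕ, 1 ≤ m ∧ Slow τ φ 3 m) ∧
    ∀ m : ℕ, 1 ≤ m → 1 / 2 < ‖φ (τ ^ m)‖ → Slow τ φ 3 m) :=
  Pool.Agent.Helper87.SC.Main.main

end Pool.Agent.Results.MP_81910f_an.SummableCorrelations
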